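import Pool.Agent.R551.DP.Defs

/-!
# The non-uniform lower bound for private anonymized histograms
-/

set_option autoImplicit false

open MeasureTheory Finset
open scoped ENNReal

namespace Pool.Agent.Results.MP_c9d3d4_lc.NonUniformLowerBound

open Pool.Agent.R551.DP

/-- There is an absolute constant `c > 0` such that for every `ε ≥ 1` and all sufficiently large
`n`, every `ε`-differentially private algorithm on the integer partitions of size at most `n` has
expected `ℓ₁`-error at least `c √n / e^ε` on some integer partition of size exactly `n`. -/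
theorem result : ∃ c : ℝ, 0 < c ∧ ∀ ε : ℝ, 1 ≤ ε → ∃ N : ℕ, ∀ n : ℕ, N ≤ n →
    ∀ A : (ℕ →₀ ℕ) → Measure (ℕ → ℝ), IsDP n ε A →
      ∃ p : ℕ →₀ ℕ, Antitone p ∧ size p = n ∧
        ENNReal.ofReal (c * Real.sqrt n / Real.exp ε) ≤ error A p := by
  refine ⟨1 / 128, by norm_num, fun ε hε => ?_⟩
  obtain ⟨M, hM⟩ := exists_nat_ge (64 * Real.exp ε)
  refine ⟨M ^ 2 + 16, fun n hn A hA => ?_⟩
  have hexp1 : 1 ≤ Real.exp ε := Real.one_le_exp (by linarith)
  have hexp0 : 0 < Real.exp ε := Real.exp_pos ε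
  set s := Nat.sqrt n with hs
  have hs1 : s * s ≤ n := Nat.sqrt_le n
  have hs4 : 4 ≤ s := by
    rw [hs, Nat.le_sqrt]
    omega
  have hnR : Real.sqrt n < s + 1 := by
    rw [Real.sqrt_lt' (by positivity)]
    have := Nat.lt_succ_sqrt n
    have h2 : (n : ℝ) < ((Nat.succ (Nat.sqrt n) * Nat.succ (Nat.sqrt n) : ℕ) : ℝ) := by
      exact_mod_cast this
    rw [← hs] at h2
    push_cast at h2
    linarith [h2]
  have hMn : (M : ℝ) ≤ Real.sqrt n := by
    refine Real.le_sqrt_of_sq_le ?_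
    have : M ^ 2 ≤ n := by omega
    exact_mod_cast this
  set k := s / 4 with hk
  have hk0 : 0 < k := by omega
  have hk4 : 4 * k ≤ s := by omega
  have hk4' : s ≤ 4 * k + 3 := by omega
  have hksq : (4 * k) * (4 * k) ≤ n := (Nat.mul_le_mul hk4 hk4).trans hs1
  have hn1 : base k + k + 4 * k ≤ n := by
    have := base_le k
    nlinarith
  have hkR : (s : ℝ) ≤ 4 * k + 3 := by exact_mod_cast hk4'
  have hkpos : (0 : ℝ) < k := by exact_mod_cast hk0
  set t : ℝ := (k : ℝ) / Real.exp ε / 4 with ht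
  have ht0 : 0 ≤ t := by positivity
  set T := ⌊t⌋₊ with hT
  have hTt : (T : ℝ) ≤ t := Nat.floor_le ht0
  have htT : t < T + 1 := Nat.lt_floor_add_one t
  have hke : t * Real.exp ε = k / 4 := by
    rw [ht]
    field_simp
  have htk : t ≤ k / 4 := by
    rw [← hke]
    nlinarith
  have hTk : T ≤ k := by
    have : (T : ℝ) ≤ k := by linarith
    exact_mod_cast this
  have hTF : ∀ j < T, 2 * (Real.exp (2 * ε) * ((j + 1 : ℕ) : ℝ) ^ 2) ≤ ((k - j : ℕ) : ℝ) ^ 2 := by
    intro j hj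
    have hj1 : ((j + 1 : ℕ) : ℝ) ≤ T := by exact_mod_cast hj
    have hj2 : (j : ℝ) ≤ k / 4 := by
      push_cast at hj1
      linarith
    have e1 : Real.exp (2 * ε) = Real.exp ε ^ 2 := by
      rw [← Real.exp_nat_mul]
      norm_num
    rw [e1, Nat.cast_sub (by omega), ← mul_pow]
    have h1 : Real.exp ε * ((j + 1 : ℕ) : ℝ) ≤ k / 4 := by
      rw [← hke, mul_comm]
      exact mul_le_mul_of_nonneg_right (hj1.trans hTt) hexp0.le
    have h0 : 0 ≤ Real.exp ε * ((j + 1 : ℕ) : ℝ) := by positivity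
    have h2 : (Real.exp ε * ((j + 1 : ℕ) : ℝ)) ^ 2 ≤ (k / 4 : ℝ) ^ 2 := pow_le_pow_left₀ h0 h1 2
    have h3 : (3 * k / 4 : ℝ) ^ 2 ≤ ((k : ℝ) - j) ^ 2 :=
      pow_le_pow_left₀ (by positivity) (by linarith) 2
    nlinarith
  obtain ⟨p, hp1, hp2, hp3⟩ := exists_large hA hk0 hn1 hTk hTF
  refine ⟨p, hp1, hp2, (ENNReal.ofReal_le_ofReal ?_).trans hp3⟩
  rw [div_le_iff₀ hexp0]
  have h1 : 64 * Real.exp ε ≤ Real.sqrt n := hM.trans hMn
  have h2 : (T : ℝ) * Real.exp ε ≥ k / 4 - Real.exp ε := by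
    rw [← hke]
    nlinarith
  nlinarith

end Pool.Agent.Results.MP_c9d3d4_lc.NonUniformLowerBound
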